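import Pool.Agent.Helper91.GU.StD

set_option autoImplicit false
set_option linter.unusedVariables false
set_option linter.unusedSectionVars false

namespace Pool.Agent.Helper65.GU

open Polynomial IsLocalRing Pool.Agent.Helper91.GU

universe u

theorem len_bound {α β : Type u} [Preorder α] [Preorder β] (f : α → β) (hf : StrictMono f)
    (N M : ℕ) (h1 : ∀ x, (N : ℕ∞) ≤ Order.height (f x)) (h2 : ∀ x, Order.height (f x) ≤ (M : ℕ∞))
    (p : LTSeries α) : p.length + N ≤ M := by
  have key : ∀ i : ℕ, ∀ h : i < p.length + 1,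
      ((i + N : ℕ) : ℕ∞) ≤ Order.height (f (p ⟨i, h⟩)) := by
    intro i
    induction i with
    | zero =>
      intro h
      simpa using h1 _
    | succ i ih =>
      intro h
      have h3 := ih (by omega)
      have h4 : f (p ⟨i, by omega⟩) < f (p ⟨i + 1, h⟩) := hf (p.strictMono (by simp [Fin.lt_def]))
      have h5 := Order.height_add_one_le h4
      calc ((i + 1 + N : ℕ) : ℕ∞) = ((i + N : ℕ) : ℕ∞) + 1 := by push_cast; ring
        _ ≤ Order.height (f (p ⟨i, by omega⟩)) + 1 := by gcongr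
        _ ≤ _ := h5
  have := (key p.length (by omega)).trans (h2 _)
  exact_mod_cast this

theorem height_bound {A B : Type u} [CommRing A] [CommRing B] (π : A →+* B)
    (hπ : Function.Surjective π) (N M : ℕ)
    (h1 : ∀ P : Ideal B, P.IsPrime → (N : ℕ∞) ≤ (P.comap π).height)
    (h2 : ∀ P : Ideal A, P.IsPrime → P.height ≤ (M : ℕ∞)) (p : LTSeries (PrimeSpectrum B)) :
    p.length + N ≤ M := by
  refine len_bound (PrimeSpectrum.comap π) (RingHom.strictMono_comap_of_surjective hπ) N M ?_ ?_ p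
  · intro x
    rw [← PrimeSpectrum.height_eq_orderHeight]
    exact h1 _ x.isPrime
  · intro x
    rw [← PrimeSpectrum.height_eq_orderHeight]
    exact h2 _ (PrimeSpectrum.comap π x).isPrime

theorem krull_bound {A B : Type u} [CommRing A] [CommRing B] (π : A →+* B)
    (hπ : Function.Surjective π) (s : ℕ) (hs : 1 ≤ s)
    (h1 : ∀ P : Ideal B, P.IsPrime → ((s + 1 : ℕ) : ℕ∞) ≤ (P.comap π).height)
    (h2 : ∀ P : Ideal A, P.IsPrime → P.height ≤ ((2 * s : ℕ) : ℕ∞)) :
    ringKrullDim B + 2 ≤ (s + 1 : ℕ) := by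
  have h3 : ringKrullDim B ≤ ((s - 1 : ℕ) : WithBot ℕ∞) := by
    unfold ringKrullDim Order.krullDim
    apply iSup_le
    intro p
    have := height_bound π hπ (s + 1) (2 * s) h1 h2 p
    exact_mod_cast (show p.length ≤ s - 1 by omega)
  calc ringKrullDim B + 2 ≤ ((s - 1 : ℕ) : WithBot ℕ∞) + 2 := by gcongr
    _ = (((s - 1) + 2 : ℕ) : WithBot ℕ∞) := by push_cast; rfl
    _ = ((s + 1 : ℕ) : WithBot ℕ∞) := by congr 1; omega

theorem height_comap_le {R S : Type u} [CommRing R] [CommRing S] [Algebra R S]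
    [IsNoetherianRing R] [IsNoetherianRing S] [Module.Flat R S] (P : Ideal S) [P.IsPrime] :
    (P.comap (algebraMap R S)).height ≤ P.height := by
  have : P.LiesOver (P.comap (algebraMap R S)) := ⟨rfl⟩
  have h := Ideal.height_eq_height_add_of_liesOver_of_hasGoingDown (P.comap (algebraMap R S)) P
  rw [h]
  exact le_self_add

theorem punct {L A E : Type u} [CommRing L] [IsLocalRing L] [CommRing A] [CommRing E]
    [Algebra L A] [Algebra L E] [Algebra A E] [IsScalarTower L A E] (v : A)
    (hv : v ∈ (maximalIdeal L).map (algebraMap L A)) (hu : IsUnit (algebraMap A E v)) :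
    (maximalIdeal L).map (algebraMap L E) = ⊤ := by
  apply Ideal.eq_top_of_isUnit_mem _ _ hu
  rw [IsScalarTower.algebraMap_eq L A E, ← Ideal.map_map]
  exact Ideal.mem_map_of_mem _ hv

theorem dvd_aeval {L A : Type u} [CommRing L] [CommRing A] [Algebra L A] (a b : A) (p : L[X]) :
    a - b ∣ aeval a p - aeval b p := by
  have := (p.map (algebraMap L A)).sub_dvd_eval_sub a b
  simpa [eval_map_algebraMap] using this

/-- if `(v₀; c)` is unimodular and the `c'_j = c_j + q_j v₀` vanish in `B`, then `v₀` is a unit in `B` -/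
theorem unit_of_um {L : Type u} [CommRing L] {B : Type u} [CommRing B] {n : ℕ} (f : L[X] →+* B)
    (v₀ : L[X]) (c q : Fin n → L[X]) (hU : Um (row v₀ c))
    (h : ∀ j, f (c j + q j * v₀) = 0) : IsUnit (f v₀) := by
  obtain ⟨y, hy⟩ := hU
  rw [dotProduct, Fintype.sum_sum_type] at hy
  simp only [row, Sum.elim_inl, Sum.elim_inr, Finset.univ_unique, Finset.sum_singleton] at hy
  have h1 := congrArg f hy
  rw [map_add, map_mul, map_sum, map_one] at h1
  have h2 : ∀ j, f (c j) = - f (q j) * f v₀ := by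
    intro j
    have := h j
    rw [map_add, map_mul] at this
    linear_combination this
  refine IsUnit.of_mul_eq_one (f (y (Sum.inl default)) - ∑ j, f (q j) * f (y (Sum.inr j))) ?_
  rw [← h1, mul_sub, Finset.mul_sum, sub_eq_add_neg, ← Finset.sum_neg_distrib]
  congr 1
  apply Finset.sum_congr rfl
  intro j _
  rw [map_mul, h2]
  ring

/-- the two-variable evaluation -/
noncomputable def ev2 {L D : Type u} [CommRing L] [CommRing D] [Algebra L D] (t t' : D) :
    L[X][X] →+* D := eval₂RingHom (aeval t : L[X] →ₐ[L] D).toRingHom t'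

theorem ev2_C {L D : Type u} [CommRing L] [CommRing D] [Algebra L D] (t t' : D) (p : L[X]) :
    ev2 t t' (C p) = aeval t p := by
  simp [ev2]

theorem ev2_X {L D : Type u} [CommRing L] [CommRing D] [Algebra L D] (t t' : D) :
    ev2 (L := L) t t' X = t' := by
  simp [ev2]

theorem ev2_map {L D : Type u} [CommRing L] [CommRing D] [Algebra L D] (t t' : D) (p : L[X]) :
    ev2 t t' (p.map C) = aeval t' p := by
  rw [ev2, coe_eval₂RingHom, eval₂_map, aeval_def]
  congr 1
  ext a
  simp

/-- the case of abstract localisations -/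
theorem core {L : Type u} [CommRing L] [IsLocalRing L] [IsNoetherianRing L] (hD6 : StD6.{u})
    (s : ℕ) (hs : 1 ≤ s) (v₀ : L[X]) (c : Fin (s + 1) → L[X])
    (hU : Um (row v₀ c)) (hv : v₀ ∈ (maximalIdeal L).map C) (𝔞 : Ideal L)
    (h𝔞 : ∀ p : Ideal L, p.IsPrime → 𝔞 ≤ p → p = maximalIdeal L ∨ (s : ℕ∞) ≤ p.height)
    (E0 E2 : Type u) [CommRing E0] [CommRing E2] [Algebra L E0] [Algebra L[X][X] E0]
    [IsScalarTower L L[X][X] E0] [Algebra L E2] [Algebra L[X] E2] [IsScalarTower L L[X] E2]
    [IsLocalization.Away (C v₀ * v₀.map C) E0] [IsLocalization.Away v₀ E2]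
    (hE0 : (maximalIdeal L).map (algebraMap L E0) = ⊤ → ∀ P : Ideal E0, P.IsPrime →
      P.height ≤ (2 * s + 1 : ℕ))
    (hE2 : (maximalIdeal L).map (algebraMap L E2) = ⊤ → ∀ P : Ideal E2, P.IsPrime →
      P.height ≤ (2 * s : ℕ)) :
    ∃ α β : Fin (s + 1) → L, (∀ j, α j ∈ maximalIdeal L) ∧ (∀ j, β j ∈ maximalIdeal L) ∧
    let I := idl (fun j => c j + (C (α j) + C (β j) * X) * v₀)
    (∀ (D : Type u) [CommRing D] [Algebra L D] (t t' : D),
      (∀ P ∈ I, aeval t P = 0) → (∀ P ∈ I, aeval t' P = 0) → t = t') ∧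
    𝔞.map (algebraMap L (L[X] ⧸ I)) = ⊤ ∧
    ringKrullDim (L[X] ⧸ I) + 2 ≤ (s + 1 : ℕ) := by
  classical
  have hv' : v₀ ∈ (maximalIdeal L).map (algebraMap L L[X]) := hv
  -- noetherian
  have : IsNoetherianRing E0 :=
    IsLocalization.isNoetherianRing (Submonoid.powers (C v₀ * v₀.map C)) E0 inferInstance
  have : IsNoetherianRing E2 :=
    IsLocalization.isNoetherianRing (Submonoid.powers v₀) E2 inferInstance
  have : Module.Flat L[X] E2 := IsLocalization.flat E2 (Submonoid.powers v₀)
  have : Module.Flat L E2 := Module.Flat.trans L L[X] E2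
  -- units
  have hu2 : IsUnit (algebraMap L[X] E2 v₀) := IsLocalization.Away.algebraMap_isUnit v₀
  have hu0 : IsUnit (algebraMap L[X][X] E0 (C v₀ * v₀.map C)) :=
    IsLocalization.Away.algebraMap_isUnit _
  -- punctured
  have hp2 : (maximalIdeal L).map (algebraMap L E2) = ⊤ := punct v₀ hv' hu2
  have hp0 : (maximalIdeal L).map (algebraMap L E0) = ⊤ := by
    refine punct (C v₀ * v₀.map C) ?_ hu0
    apply Ideal.mul_mem_right
    have h1 : (maximalIdeal L).map (algebraMap L L[X][X]) =
        ((maximalIdeal L).map C).map (C : L[X] →+* L[X][X]) := by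
      rw [Ideal.map_map]
      rfl
    rw [h1]
    exact Ideal.mem_map_of_mem _ hv
  set 𝔞2 : Ideal E2 := 𝔞.map (algebraMap L E2) with h𝔞2
  have hp1 : (maximalIdeal L).map (algebraMap L (E2 ⧸ 𝔞2)) = ⊤ := by
    rw [IsScalarTower.algebraMap_eq L E2 (E2 ⧸ 𝔞2), ← Ideal.map_map, hp2, Ideal.map_top]
  -- heights
  have hh0 := hE0 hp0
  have hh2 := hE2 hp2
  have hh1 : ∀ P : Ideal (E2 ⧸ 𝔞2), P.IsPrime → P.height < ((s + 1 : ℕ) : ℕ∞) := by
    intro P hP
    have h1 : P.height ≤ (s : ℕ∞) := by
      have e := PrimeSpectrum.height_eq_orderHeight (⟨P, hP⟩ : PrimeSpectrum (E2 ⧸ 𝔞2))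
      change P.height = _ at e
      rw [e]
      apply Order.height_le
      intro p hp
      have h2 := height_bound (Ideal.Quotient.mk 𝔞2) Ideal.Quotient.mk_surjective s (2 * s) ?_ hh2 p
      · exact_mod_cast (show p.length ≤ s by omega)
      intro Q hQ
      have hQ2 : (Q.comap (Ideal.Quotient.mk 𝔞2)).IsPrime := Ideal.comap_isPrime _ _
      set Q2 := Q.comap (Ideal.Quotient.mk 𝔞2) with hQ2def
      have h3 := height_comap_le (R := L) Q2
      have : (Q2.comap (algebraMap L E2)).IsPrime := Ideal.comap_isPrime _ _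
      have hle : 𝔞 ≤ Q2.comap (algebraMap L E2) := by
        rw [← Ideal.map_le_iff_le_comap, ← h𝔞2, hQ2def]
        intro x hx
        rw [Ideal.mem_comap, Ideal.Quotient.eq_zero_iff_mem.2 hx]
        exact Q.zero_mem
      rcases h𝔞 (Q2.comap (algebraMap L E2)) inferInstance hle with h4 | h4
      · exfalso
        apply hQ2.ne_top
        rw [eq_top_iff, ← hp2, Ideal.map_le_iff_le_comap, h4]
      · exact h4.trans h3
    refine lt_of_le_of_lt h1 ?_
    exact_mod_cast Nat.lt_succ_self s
  have hh0' : ∀ P : Ideal E0, P.IsPrime → P.height < ((2 * (s + 1) : ℕ) : ℕ∞) := by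
    intro P hP
    refine lt_of_le_of_lt (hh0 P hP) ?_
    exact_mod_cast (show 2 * s + 1 < 2 * (s + 1) by omega)
  -- elements of E0
  set T : E0 := algebraMap L[X][X] E0 (C X) with hT
  set T' : E0 := algebraMap L[X][X] E0 X with hT'
  have hat : ∀ p : L[X], aeval T p = algebraMap L[X][X] E0 (C p) := by
    intro p
    have h1 : aeval (C X : L[X][X]) p = C p := by
      have h2 := aeval_algebraMap_apply (L[X][X]) (X : L[X]) p
      rw [aeval_X_left_apply] at h2
      exact h2
    rw [hT, aeval_algebraMap_apply, h1]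
  have hat' : ∀ p : L[X], aeval T' p = algebraMap L[X][X] E0 (p.map C) := by
    intro p
    have h1 : aeval (X : L[X][X]) p = p.map C := by
      rw [aeval_def, eval₂_eq_eval_map, ← eval₂_eq_eval_map]
      rfl
    rw [hT', aeval_algebraMap_apply, h1]
  have hprod : IsUnit (aeval T v₀ * aeval T' v₀) := by
    rw [hat, hat', ← map_mul]
    exact hu0
  obtain ⟨w, hw⟩ := (isUnit_of_mul_isUnit_left hprod).exists_right_inv
  obtain ⟨w', hw'⟩ := (isUnit_of_mul_isUnit_right hprod).exists_right_inv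
  choose D hD using fun j => dvd_aeval T T' (c j)
  obtain ⟨D0, hD0⟩ := dvd_aeval T T' v₀
  set Δ : Fin (s + 1) → E0 := fun j => (- D j * aeval T' v₀ + aeval T' (c j) * D0) * (w * w')
    with hΔ
  have hΔ' : ∀ j, (T - T') * Δ j = - aeval T (c j) * w + aeval T' (c j) * w' := by
    intro j
    rw [hΔ]
    have e1 := hD j
    simp only []
    linear_combination ((aeval T' v₀) * (w * w')) * e1 - (aeval T' (c j)) * (w * w') * hD0 -
      (aeval T (c j) * w) * hw' + (aeval T' (c j) * w') * hw
  obtain ⟨w2, hw2⟩ := hu2.exists_right_inv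
  have hD6' := hD6 L E0 (E2 ⧸ 𝔞2) E2 hp0 hp1 hp2 (s + 1) Δ
    (fun j => - aeval T (c j) * w - T * Δ j)
    (fun j => Ideal.Quotient.mk 𝔞2 (- algebraMap L[X] E2 (c j) * w2))
    (Ideal.Quotient.mk 𝔞2 (algebraMap L[X] E2 X))
    (fun j => - algebraMap L[X] E2 (c j) * w2) (algebraMap L[X] E2 X) hh0' hh1
  obtain ⟨α, β, hα, hβ, hA, hB, hC⟩ := hD6'
  refine ⟨α, β, hα, hβ, ?_⟩
  intro I
  have hI : ∀ j, c j + (C (α j) + C (β j) * X) * v₀ ∈ I := fun j =>
    Ideal.subset_span ⟨j, rfl⟩
  have huB : IsUnit (Ideal.Quotient.mk I v₀) := unit_of_um (Ideal.Quotient.mk I) v₀ c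
    (fun j => C (α j) + C (β j) * X) hU (fun j => Ideal.Quotient.eq_zero_iff_mem.2 (hI j))
  set g2 : E2 →+* L[X] ⧸ I := IsLocalization.Away.lift v₀ huB with hg2def
  have hg2l : ∀ P : L[X], g2 (algebraMap L[X] E2 P) = Ideal.Quotient.mk I P := fun P =>
    IsLocalization.Away.lift_eq _ huB P
  have hg2s : Function.Surjective g2 := by
    intro b
    obtain ⟨P, rfl⟩ := Ideal.Quotient.mk_surjective b
    exact ⟨_, hg2l P⟩
  have hg2a : ∀ a : L, g2 (algebraMap L E2 a) = Ideal.Quotient.mk I (C a) := by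
    intro a
    rw [IsScalarTower.algebraMap_apply L L[X] E2, hg2l]
    rfl
  have hg2w : Ideal.Quotient.mk I v₀ * g2 w2 = 1 := by
    have := congrArg g2 hw2
    rwa [map_mul, hg2l, map_one] at this
  have hvan : ∀ j, g2 (- algebraMap L[X] E2 (c j) * w2 - algebraMap L E2 (β j) *
      algebraMap L[X] E2 X - algebraMap L E2 (α j)) = 0 := by
    intro j
    have e1 := Ideal.Quotient.eq_zero_iff_mem.2 (hI j)
    simp only [map_add, map_mul] at e1
    simp only [map_sub, map_mul, map_neg, hg2l, hg2a]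
    linear_combination (- g2 w2) * e1 + (Ideal.Quotient.mk I (C (α j)) +
      Ideal.Quotient.mk I (C (β j)) * Ideal.Quotient.mk I X) * hg2w
  refine ⟨?_, ?_, ?_⟩
  · -- (b)
    intro R _ _ t t' ht ht'
    have hc : ∀ j, aeval t (c j) + (algebraMap L R (α j) + algebraMap L R (β j) * t) *
        aeval t v₀ = 0 := by
      intro j
      have := ht _ (hI j)
      simpa only [map_add, map_mul, aeval_C, aeval_X] using this
    have hc' : ∀ j, aeval t' (c j) + (algebraMap L R (α j) + algebraMap L R (β j) * t') *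
        aeval t' v₀ = 0 := by
      intro j
      have := ht' _ (hI j)
      simpa only [map_add, map_mul, aeval_C, aeval_X] using this
    have hu : IsUnit (aeval t v₀) := unit_of_um (aeval t : L[X] →ₐ[L] R).toRingHom v₀ c
      (fun j => C (α j) + C (β j) * X) hU (fun j => ht _ (hI j))
    have hu' : IsUnit (aeval t' v₀) := unit_of_um (aeval t' : L[X] →ₐ[L] R).toRingHom v₀ c
      (fun j => C (α j) + C (β j) * X) hU (fun j => ht' _ (hI j))
    have hunit : IsUnit (ev2 t t' (C v₀ * v₀.map C)) := by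
      rw [map_mul, ev2_C, ev2_map]
      exact hu.mul hu'
    set g : E0 →+* R := IsLocalization.Away.lift (C v₀ * v₀.map C) hunit with hg
    have hgl : ∀ P : L[X][X], g (algebraMap L[X][X] E0 P) = ev2 t t' P := fun P =>
      IsLocalization.Away.lift_eq _ hunit P
    have hgT : ∀ p : L[X], g (aeval T p) = aeval t p := by
      intro p
      rw [hat, hgl, ev2_C]
    have hgT' : ∀ p : L[X], g (aeval T' p) = aeval t' p := by
      intro p
      rw [hat', hgl, ev2_map]
    have hg1 : g T = t := by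
      have := hgT X
      simpa using this
    have hg2 : g T' = t' := by
      have := hgT' X
      simpa using this
    have hga : ∀ a : L, g (algebraMap L E0 a) = algebraMap L R a := by
      intro a
      have := hgT (C a)
      simpa using this
    have hgw : aeval t v₀ * g w = 1 := by
      have := congrArg g hw
      rwa [map_mul, hgT, map_one] at this
    have hgw' : aeval t' v₀ * g w' = 1 := by
      have := congrArg g hw'
      rwa [map_mul, hgT', map_one] at this
    have hk1 : ∀ j, (t - t') * g (Δ j - algebraMap L E0 (β j)) = 0 := by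
      intro j
      have e1 := congrArg g (hΔ' j)
      simp only [map_mul, map_sub, map_add, map_neg, hg1, hg2, hgT, hgT'] at e1
      rw [map_sub, hga]
      linear_combination e1 - g w * hc j + g w' * hc' j +
        (algebraMap L R (α j) + algebraMap L R (β j) * t) * hgw -
        (algebraMap L R (α j) + algebraMap L R (β j) * t') * hgw'
    have hk2 : ∀ j, (t - t') * g (- aeval T (c j) * w - T * Δ j - algebraMap L E0 (α j)) = 0 := by
      intro j
      have e1 := hk1 j
      rw [map_sub, hga] at e1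
      simp only [map_mul, map_sub, map_neg, hg1, hgT, hga]
      linear_combination (-t) * e1 - (t - t') * g w * hc j +
        (t - t') * (algebraMap L R (α j) + algebraMap L R (β j) * t) * hgw
    have hle : Ideal.span (Set.range (fun j => Δ j - algebraMap L E0 (β j)) ∪
        Set.range (fun j => - aeval T (c j) * w - T * Δ j - algebraMap L E0 (α j))) ≤
        (Ideal.span {(t - t')}).annihilator.comap g := by
      rw [Ideal.span_le]
      rintro x (⟨j, rfl⟩ | ⟨j, rfl⟩)
      · rw [SetLike.mem_coe, Ideal.mem_comap, Submodule.mem_annihilator_span_singleton, smul_eq_mul,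
          mul_comm]
        exact hk1 j
      · rw [SetLike.mem_coe, Ideal.mem_comap, Submodule.mem_annihilator_span_singleton, smul_eq_mul,
          mul_comm]
        exact hk2 j
    rw [hA] at hle
    have h1 : (1 : E0) ∈ (Ideal.span {(t - t')}).annihilator.comap g := hle trivial
    rw [Ideal.mem_comap, map_one, Submodule.mem_annihilator_span_singleton, one_smul] at h1
    exact sub_eq_zero.1 h1
  · -- (c)
    set J : Ideal (L[X] ⧸ I) := 𝔞.map (algebraMap L (L[X] ⧸ I)) with hJ
    set f : E2 →+* (L[X] ⧸ I) ⧸ J := (Ideal.Quotient.mk J).comp g2 with hf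
    have hf0 : ∀ x ∈ 𝔞2, f x = 0 := by
      intro x hx
      have h1 : 𝔞2 ≤ RingHom.ker f := by
        rw [h𝔞2, Ideal.map_le_iff_le_comap]
        intro a ha
        rw [Ideal.mem_comap, RingHom.mem_ker, hf, RingHom.comp_apply, hg2a,
          Ideal.Quotient.eq_zero_iff_mem]
        exact Ideal.mem_map_of_mem (algebraMap L (L[X] ⧸ I)) ha
      exact h1 hx
    set F : E2 ⧸ 𝔞2 →+* (L[X] ⧸ I) ⧸ J := Ideal.Quotient.lift 𝔞2 f hf0 with hF
    have hle : Ideal.span (Set.range fun j => Ideal.Quotient.mk 𝔞2 (- algebraMap L[X] E2 (c j) * w2) -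
        algebraMap L (E2 ⧸ 𝔞2) (β j) * Ideal.Quotient.mk 𝔞2 (algebraMap L[X] E2 X) -
        algebraMap L (E2 ⧸ 𝔞2) (α j)) ≤ RingHom.ker F := by
      rw [Ideal.span_le]
      rintro x ⟨j, rfl⟩
      rw [SetLike.mem_coe, RingHom.mem_ker]
      have e1 : Ideal.Quotient.mk 𝔞2 (- algebraMap L[X] E2 (c j) * w2) -
        algebraMap L (E2 ⧸ 𝔞2) (β j) * Ideal.Quotient.mk 𝔞2 (algebraMap L[X] E2 X) -
        algebraMap L (E2 ⧸ 𝔞2) (α j) = Ideal.Quotient.mk 𝔞2 (- algebraMap L[X] E2 (c j) * w2 -
          algebraMap L E2 (β j) * algebraMap L[X] E2 X - algebraMap L E2 (α j)) := by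
        rw [map_sub, map_sub, map_mul (Ideal.Quotient.mk 𝔞2) (algebraMap L E2 (β j))]
        rfl
      simp only []
      rw [e1, hF, Ideal.Quotient.lift_mk, hf, RingHom.comp_apply, hvan, map_zero]
    rw [hB] at hle
    have h1 : (1 : E2 ⧸ 𝔞2) ∈ RingHom.ker F := hle trivial
    rw [RingHom.mem_ker, map_one] at h1
    rw [Ideal.eq_top_iff_one]
    rw [← Ideal.Quotient.eq_zero_iff_mem, map_one]
    exact h1
  · -- (d)
    refine krull_bound g2 hg2s s hs ?_ hh2
    intro P hP
    have : (P.comap g2).IsPrime := Ideal.comap_isPrime _ _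
    refine hC (P.comap g2) this ?_
    intro j
    rw [Ideal.mem_comap, hvan]
    exact P.zero_mem

theorem hD7 (hD3 : StD3.{u}) (hD3b : StD3b.{u}) (hD6 : StD6.{u}) : StD7.{u} := by
  intro L _ _ _ s hs hdim v₀ c hU hv 𝔞 h𝔞
  have hb := hD3b L (2 * s) hdim
  refine core hD6 s hs v₀ c hU hv 𝔞 h𝔞 (Localization.Away (C v₀ * v₀.map C))
    (Localization.Away v₀) ?_ ?_
  · intro h P hP
    exact hb.2 _ (Submonoid.powers (C v₀ * v₀.map C)) h P hP
  · intro h P hP
    exact hb.1 _ (Submonoid.powers v₀) h P hP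

end Pool.Agent.Helper65.GU
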