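import Pool.Agent.Helper96.GU.St

/-!
# Project GU (MP_2c90c1_al), module LV0: the start of the tower, two generators
-/

set_option autoImplicit false

namespace Pool.Agent.Helper65.GU

open Pool.Agent.Helper96.UT hiding StTOP TopV TopE tht Bd VC EC
open Pool.Agent.Helper96.GU

/-- The stabiliser part on which a cochain vanishes. -/
private def zeroGroup {α Ω : Type} [MulAction (FreeGroup α) Ω] (φ : Ω × α → ℚ) (v : Ω) :
    Subgroup (FreeGroup α) where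
  carrier := {g | act v g = v ∧ Sa φ v g = 0}
  mul_mem' := by
    rintro g h ⟨hg, hg0⟩ ⟨hh, hh0⟩
    refine ⟨by rw [act_mul, hg, hh], ?_⟩
    change Sa φ v (g * h) = 0
    rw [Sa_mul, hg, hg0, hh0, add_zero]
  one_mem' := ⟨act_one v, Sa_one φ v⟩
  inv_mem' := by
    rintro g ⟨hg, hg0⟩
    refine ⟨act_inv_eq hg, ?_⟩
    change Sa φ v g⁻¹ = 0
    have h := Sa_inv φ v g
    rw [hg, hg0, neg_zero] at h
    exact h

private theorem zero_on {α Ω : Type} [MulAction (FreeGroup α) Ω] (φ : Ω × α → ℚ) (v : Ω)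
    (L : Subgroup (FreeGroup α)) (h₁ h₂ : FreeGroup α) (hL : L = Subgroup.closure {h₁, h₂})
    (hst : ∀ h ∈ L, act v h = v) (e1 : Sa φ v h₁ = 0) (e2 : Sa φ v h₂ = 0) :
    ∀ h ∈ L, Sa φ v h = 0 := by
  have h1 : h₁ ∈ L := by rw [hL]; exact Subgroup.subset_closure (by simp)
  have h2 : h₂ ∈ L := by rw [hL]; exact Subgroup.subset_closure (by simp)
  have hle : L ≤ zeroGroup φ v := by
    rw [hL, Subgroup.closure_le]
    rintro x (rfl | hx)
    · exact ⟨hst _ h1, e1⟩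
    · rw [Set.mem_singleton_iff] at hx
      subst hx
      exact ⟨hst _ h2, e2⟩
  intro h hh
  exact (hle hh).2

/-- Every integer is reduced modulo the period. -/
private theorem red_mod {α : Type} (Z : Cyc α) (i : ℤ) : ∃ t : ℕ, t < Z.n ∧ ∃ q : ℤ,
    i = (t : ℤ) + q * Z.n := by
  have hnpos : (0 : ℤ) < Z.n := by exact_mod_cast Z.pos
  have e1 : i = i % Z.n + (i / Z.n) * Z.n := by
    have := Int.emod_add_mul_ediv i Z.n
    linarith [mul_comm (Z.n : ℤ) (i / Z.n)]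
  have h0 : 0 ≤ i % Z.n := Int.emod_nonneg _ hnpos.ne'
  have h1 : i % Z.n < Z.n := Int.emod_lt_of_pos _ hnpos
  obtain ⟨t, ht⟩ := Int.eq_ofNat_of_zero_le h0
  refine ⟨t, by omega, i / Z.n, ?_⟩
  rw [← ht]; exact e1

private theorem mem_VC {α Ω : Type} [MulAction (FreeGroup α) Ω] {Z : Cyc α} {C : Finset Ω}
    (hfix : ∀ u ∈ C, act u Z.s = u) {u : Ω} (hu : u ∈ C) (i : ℤ) :
    act u (pre Z.c i) ∈ VC Z C := by
  classical
  obtain ⟨t, ht, q, rfl⟩ := red_mod Z i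
  rw [act_pre_per (hfix u hu)]
  unfold VC
  refine Finset.mem_image.2 ⟨(u, t), ?_, rfl⟩
  exact Finset.mem_product.2 ⟨hu, Finset.mem_range.2 ht⟩

/-- The description of an edge of a cell. -/
private theorem edge_ends {α Ω : Type} [MulAction (FreeGroup α) Ω] {Z : Cyc α} (u : Ω) (i : ℤ)
    {x : Ω} {a : α} (h : (x, a) = ed (act u (pre Z.c i)) (Z.c i)) :
    (x = act u (pre Z.c i) ∧ act x (lt (a, true)) = act u (pre Z.c (i + 1))) ∨
    (x = act u (pre Z.c (i + 1)) ∧ act x (lt (a, true)) = act u (pre Z.c i)) := by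
  have h1 : ed x (a, true) = ed (act u (pre Z.c i)) (Z.c i) := by
    rw [← h]; simp [ed]
  rcases ed_eq h1.symm with ⟨h2, h3⟩ | ⟨h2, h3⟩
  · left
    refine ⟨h2, ?_⟩
    rw [h3, h2, act_pre_succ]
  · right
    rw [act_pre_succ] at h2
    refine ⟨h2, ?_⟩
    rw [h2, h3, lt_bar]
    apply act_inv_eq
    rw [act_pre_succ]

theorem tLV0 : StLA → StTOP → StLV0 := by
  classical
  intro hLA hTOP α Z η L h₁ h₂ hL hsL Ω _ v E C w hIni hcard Θ _ o hoL f hf hfo ψ κ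
  have hfix := hIni.cpx.fix
  have hECE : ∀ e ∈ EC Z C, e ∈ E := by
    intro e he
    unfold EC at he
    obtain ⟨p, hp, rfl⟩ := Finset.mem_image.1 he
    rw [Finset.mem_product] at hp
    exact hIni.cpx.sub p.1 hp.1 ⟨(p.2 : ℤ), rfl⟩
  let ι : Type := Fin 2 ⊕ {p // p ∈ C ∧ p ≠ v}
  have hfin : Fintype {p // p ∈ C ∧ p ≠ v} :=
    Fintype.ofFinset (C.erase v) (by intro p; rw [Finset.mem_erase]; exact and_comm)
  let Λ : (Ω × α → ℚ) →ₗ[ℚ] (ι → ℚ) := LinearMap.pi fun i => match i with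
    | Sum.inl j => if j = 0 then SaL v h₁ else SaL v h₂
    | Sum.inr p => SaL p.1 Z.s
  have hΛ1 : ∀ φ, Λ φ (Sum.inl 0) = Sa φ v h₁ := fun φ => rfl
  have hΛ2 : ∀ φ, Λ φ (Sum.inl 1) = Sa φ v h₂ := fun φ => rfl
  have hΛ3 : ∀ φ (p : {p // p ∈ C ∧ p ≠ v}), Λ φ (Sum.inr p) = Sa φ p.1 Z.s := fun φ p => rfl
  have hVne : (VC Z C).Nonempty := ⟨_, mem_VC hfix hIni.mem 0⟩
  have hends : ∀ (x : Ω) (a : α), (x, a) ∈ EC Z C →
      x ∈ VC Z C ∧ act x (lt (a, true)) ∈ VC Z C := by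
    intro x a hxa
    unfold EC at hxa
    obtain ⟨p, hp, hp2⟩ := Finset.mem_image.1 hxa
    rw [Finset.mem_product] at hp
    rcases edge_ends p.1 (p.2 : ℤ) hp2.symm with ⟨h1, h2⟩ | ⟨h1, h2⟩
    · rw [h2, h1]
      exact ⟨mem_VC hfix hp.1 _, mem_VC hfix hp.1 _⟩
    · rw [h2, h1]
      exact ⟨mem_VC hfix hp.1 _, mem_VC hfix hp.1 _⟩
  have hker : ∀ φ : Ω × α → ℚ, (∀ e, e ∉ EC Z C → φ e = 0) → Λ φ = 0 →
      ∃ f : Ω → ℚ, ∀ (x : Ω) (a : α), (x, a) ∈ EC Z C →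
        φ (x, a) = f (act x (lt (a, true))) - f x := by
    intro φ _ hφ
    have e1 : Sa φ v h₁ = 0 := by rw [← hΛ1, hφ]; rfl
    have e2 : Sa φ v h₂ = 0 := by rw [← hΛ2, hφ]; rfl
    have e3 := zero_on φ v L h₁ h₂ hL hIni.stab e1 e2
    have e4 : ∀ u ∈ C, Sa φ u Z.s = 0 := by
      intro u hu
      by_cases huv : u = v
      · rw [huv]; exact e3 _ hsL
      · rw [← hΛ3 φ ⟨u, hu, huv⟩, hφ]; rfl
    obtain ⟨g, hg⟩ := potential (EC Z C : Set (Ω × α)) φ (by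
      intro x q hq hx
      exact hIni.hh φ e4 (fun h hh => e3 h hh) x q (InE_mono (fun e he => hECE e he) hq) hx)
    exact ⟨g, fun x a hxa => hg x a hxa⟩
  have hcι : Fintype.card ι + 1 = C.card + 2 := by
    have h1 : Fintype.card {p // p ∈ C ∧ p ≠ v} = (C.erase v).card :=
      Fintype.card_of_subtype (C.erase v) (by intro p; rw [Finset.mem_erase]; exact and_comm)
    have h2 : (C.erase v).card + 1 = C.card := Finset.card_erase_add_one hIni.mem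
    have h3 : Fintype.card ι = 2 + (C.erase v).card := by
      rw [Fintype.card_sum, Fintype.card_fin, h1]
    omega
  have htop := hTOP α Z η Ω C hfix
  have hsurj := (hLA α Ω (EC Z C) (VC Z C) ι Λ hVne hends hker).2 (by omega)
  -- the cochain on `Θ`
  let ψ' : Θ × α → ℚ := fun e => ψ ((f e.1, e.1), e.2)
  obtain ⟨φ, hφ0, hφ⟩ := hsurj (fun i => match i with
    | Sum.inl j => if j = 0 then Sa ψ' o h₁ else Sa ψ' o h₂
    | Sum.inr p => κ p.1)
  have hφ1 : Sa φ v h₁ = Sa ψ' o h₁ := by rw [← hΛ1, hφ]; rfl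
  have hφ2 : Sa φ v h₂ = Sa ψ' o h₂ := by rw [← hΛ2, hφ]; rfl
  have hφ3 : ∀ p ∈ C, p ≠ v → Sa φ p Z.s = κ p := by
    intro p hp hpv
    rw [← hΛ3 φ ⟨p, hp, hpv⟩, hφ]
  let χ : Θ × α → ℚ := fun e => ψ' e - φ (f e.1, e.2)
  have hχ : ∀ g, Sa χ o g = Sa ψ' o g - Sa φ v g := by
    intro g
    have h1 := Sa_sub ψ' (fun e : Θ × α => φ (f e.1, e.2)) o g
    rw [Sa_comp f hf φ o g, hfo] at h1
    exact h1
  have hχL := zero_on χ o L h₁ h₂ hL (fun h hh => (hoL h).2 hh)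
    (by rw [hχ, hφ1, sub_self]) (by rw [hχ, hφ2, sub_self])
  obtain ⟨g₀, hg₀⟩ := potential (CE Z o) χ (by
    intro x q hq hx
    cases q with
    | nil => rfl
    | cons y q =>
      have hxj : ∃ j : ℤ, x = act o (pre Z.c j) := by
        obtain ⟨i, hi⟩ := hq.1
        rcases ed_eq hi.symm with ⟨h2, _⟩ | ⟨h2, _⟩
        · exact ⟨i, h2⟩
        · exact ⟨i + 1, by rw [h2, act_pre_succ]⟩
      obtain ⟨j, rfl⟩ := hxj
      set Q := FreeGroup.mk (y :: q) with hQ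
      have h1 : act o (pre Z.c j * Q * (pre Z.c j)⁻¹) = o := by
        rw [act_mul, act_mul, hx]
        exact act_inv_eq rfl
      have h2 := hχL _ ((hoL _).1 h1)
      rw [Sa_mul, Sa_mul, act_mul, hx, Sa_inv] at h2
      have h3 : Sa χ (act o (pre Z.c j)) Q = Sm χ (act o (pre Z.c j)) (y :: q) := rfl
      rw [h3] at h2
      linarith)
  refine ⟨φ, fun x => g₀ x.2, ?_, fun p hp => hφ3 p hp.1 hp.2⟩
  rintro ⟨⟨x, γ⟩, a⟩ hxB hγ
  have hx : x = f γ := hxB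
  subst hx
  have h1 := hg₀ γ a hγ
  have h2 : χ (γ, a) = ψ ((f γ, γ), a) - φ (f γ, a) := rfl
  have h3 : (act ((f γ, γ) : Ω × Θ) (lt (a, true))).2 = act γ (lt (a, true)) := rfl
  change ψ ((f γ, γ), a) = φ (f γ, a) + (g₀ (act ((f γ, γ) : Ω × Θ) (lt (a, true))).2 - g₀ γ)
  rw [h3, ← h1, h2]
  ring

end Pool.Agent.Helper65.GU
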