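import Pool.Agent.Helper96.GU.St

/-!
# Project GU (MP_2c90c1_al), module TOW: the tower
-/

set_option autoImplicit false

namespace Pool.Agent.Helper65.GU

open Pool.Agent.Helper96.UT hiding StTOP TopV TopE tht Bd VC EC
open Pool.Agent.Helper96.GU

/-- The elements which fix `v` and have a path in `E`. -/
private def pathGroup {α Ω : Type} [MulAction (FreeGroup α) Ω] (E : Set (Ω × α)) (v : Ω) :
    Subgroup (FreeGroup α) where
  carrier := {g | act v g = v ∧ ∃ P : List (α × Bool), InE E v P ∧ FreeGroup.mk P = g}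
  mul_mem' := by
    rintro g h ⟨hg, P, hP, rfl⟩ ⟨hh, R, hR, rfl⟩
    refine ⟨by rw [act_mul, hg, hh], P ++ R, ?_, by rw [mk_append]⟩
    rw [InE_append, hg]
    exact ⟨hP, hR⟩
  one_mem' := ⟨act_one v, [], trivial, mk_nil⟩
  inv_mem' := by
    rintro g ⟨hg, P, hP, rfl⟩
    refine ⟨act_inv_eq hg, FreeGroup.invRev P, ?_, by rw [mk_invRev]⟩
    have h := InE_invRev hP
    rwa [hg] at h

theorem tTOW : StDUA → StTWU → StLFT → StDEN → StTWF → StTOW := by
  classical
  intro hDUA hTWU hLFT hDEN hTWF α Z L hsL Θ _ o hoL W q hqE hqL hqW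
  set W' : Finset (List (α × Bool)) := W.image fun w => w ++ seg Z.c 0 Z.n with hW'
  set N : ℕ := ∑ w ∈ W', (w.length + 1) with hN
  -- facts for one level
  have hbase : ∀ (Ω : Type) [MulAction (FreeGroup α) Ω] (v : Ω) (B : Set (Ω × Θ)) (D : Set Ω),
      Tw Z o W v B D → Cpx Z (EW W' v) (W.image fun w => act v (FreeGroup.mk w)) ∧
        ∃ q' : List (α × Bool), FreeGroup.mk q' = FreeGroup.mk q ∧ InE (CE Z o) o q' ∧
          InE (EW W' v) v q' ∧ act v (FreeGroup.mk q') = v := by
    intro Ω _ v B D hTw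
    have hpath : ∀ w ∈ W, InE (EW W' v) v w ∧
        InE (EW W' v) (act v (FreeGroup.mk w)) (seg Z.c 0 Z.n) := by
      intro w hw
      have h1 : w ++ seg Z.c 0 Z.n ∈ W' := Finset.mem_image_of_mem _ hw
      have h2 := InE_EW (v := v) h1
      rwa [InE_append] at h2
    refine ⟨⟨?_, ?_⟩, ?_⟩
    · intro u hu
      obtain ⟨w, hw, rfl⟩ := Finset.mem_image.1 hu
      exact hTw.fix w hw
    · intro u hu e he
      obtain ⟨w, hw, rfl⟩ := Finset.mem_image.1 hu
      obtain ⟨i, rfl⟩ := he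
      have hfix := hTw.fix w hw
      set u := act v (FreeGroup.mk w) with hu'
      have hnpos : (0 : ℤ) < Z.n := by exact_mod_cast Z.pos
      have e1 : i = i % Z.n + (i / Z.n) * Z.n := by
        have := Int.emod_add_mul_ediv i Z.n
        linarith [mul_comm (Z.n : ℤ) (i / Z.n)]
      have h0 : 0 ≤ i % Z.n := Int.emod_nonneg _ hnpos.ne'
      have h1 : i % Z.n < Z.n := Int.emod_lt_of_pos _ hnpos
      rw [e1, act_pre_per hfix, Z.per_mul]
      have h2 := (hpath w hw).2
      have h3 : InE (EW W' v) (act u (pre Z.c 0)) (seg Z.c 0 Z.n) := by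
        rw [pre_zero, act_one]; exact h2
      rw [InE_seg] at h3
      obtain ⟨t, ht⟩ := Int.eq_ofNat_of_zero_le h0
      have h4 := h3 t (by omega)
      rw [zero_add] at h4
      rw [ht]
      exact h4
    · have hle : Subgroup.closure {x : FreeGroup α | ∃ w ∈ W,
          x = FreeGroup.mk w * Z.s * (FreeGroup.mk w)⁻¹} ≤ pathGroup (EW W' v) v := by
        rw [Subgroup.closure_le]
        rintro x ⟨w, hw, rfl⟩
        obtain ⟨hp1, hp2⟩ := hpath w hw
        have hfix := hTw.fix w hw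
        refine ⟨?_, w ++ seg Z.c 0 Z.n ++ FreeGroup.invRev w, ?_, ?_⟩
        · rw [act_mul, act_mul, hfix]
          exact act_inv_eq rfl
        · rw [InE_append, InE_append]
          refine ⟨⟨hp1, hp2⟩, ?_⟩
          rw [mk_append, act_mul, mk_seg_s, hfix]
          exact InE_invRev hp1
        · rw [mk_append, mk_append, mk_seg_s, mk_invRev]
      obtain ⟨hv, P, hP, hPq⟩ := hle hqW
      obtain ⟨q', h1, h2, h3⟩ := common_red (E := CE Z o) (E' := EW W' v) hPq.symm hqE hP
      exact ⟨q', h1, h2, h3, by rw [h1]; exact hv⟩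
  have key : ∀ k : ℕ, ∀ (Ω : Type) [MulAction (FreeGroup α) Ω] (v : Ω) (B : Set (Ω × Θ))
      (D : Set Ω), Tw Z o W v B D → N ≤ (VW W' v).card + k → FreeGroup.mk q ∈ Ns L Z := by
    intro k
    induction k with
    | zero =>
      intro Ω _ v B D hTw hk
      obtain ⟨hcpx, q', h1, h2, h3, h4⟩ := hbase Ω v B D hTw
      by_cases hH : Hh Z (EW W' v) (W.image fun w => act v (FreeGroup.mk w)) v ∅
      · rw [← h1]
        refine hTWF α Z L Ω Θ o v B D (EW W' v) _ hoL hsL hTw.inv hTw.bas hcpx ?_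
          ((hDUA α Z Ω Θ o B D).1 hTw.r2) hH q' h2 h3 h4 (by rw [h1]; exact hqL)
        intro u hu
        obtain ⟨w, hw, rfl⟩ := Finset.mem_image.1 hu
        exact hTw.cel w hw
      · exfalso
        obtain ⟨θ, hθ, x, p, hp1, hp2, hp3⟩ := hDEN α Z Ω _ _ v hH
        have hlt : (VW W' v).card < (VW W' (zp θ v 0)).card := by
          by_contra hno
          exact hp3 (hLFT α Ω θ W' v (not_lt.1 hno) x p hp1 hp2)
        have := card_VW W' (zp θ v 0)
        omega
    | succ k ih =>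
      intro Ω _ v B D hTw hk
      obtain ⟨hcpx, q', h1, h2, h3, h4⟩ := hbase Ω v B D hTw
      by_cases hH : Hh Z (EW W' v) (W.image fun w => act v (FreeGroup.mk w)) v ∅
      · rw [← h1]
        refine hTWF α Z L Ω Θ o v B D (EW W' v) _ hoL hsL hTw.inv hTw.bas hcpx ?_
          ((hDUA α Z Ω Θ o B D).1 hTw.r2) hH q' h2 h3 h4 (by rw [h1]; exact hqL)
        intro u hu
        obtain ⟨w, hw, rfl⟩ := Finset.mem_image.1 hu
        exact hTw.cel w hw
      · obtain ⟨θ, hθ, x, p, hp1, hp2, hp3⟩ := hDEN α Z Ω _ _ v hH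
        have hlt : (VW W' v).card < (VW W' (zp θ v 0)).card := by
          by_contra hno
          exact hp3 (hLFT α Ω θ W' v (not_lt.1 hno) x p hp1 hp2)
        have hTw' := hTWU α Z Ω Θ o W v B D hTw θ (fun w hw =>
          hθ _ (Finset.mem_image_of_mem _ hw))
        exact ih (Zc θ) (zp θ v 0) _ _ hTw' (by omega)
  intro Ω _ v B D hTw
  exact key N Ω v B D hTw (by omega)

end Pool.Agent.Helper65.GU
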